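import Pool.Agent.Helper3.FewP.Goals3

/-!
# Packet STRIP-FM2 (project FewPoints, MP_d3128a_ag)
-/

set_option autoImplicit false

namespace Pool.Agent.Helper99.FewP.FM2

open Pool.Agent.Helper3.FewP
open scoped BigOperators

theorem sent_mul (k r : ℕ) (a : ℂ) (h : ℤ → ℤ → ℂ) :
    sent k r (fun s n => a * h s n) = PowerSeries.C a * sent k r h := by
  ext e
  rw [PowerSeries.coeff_C_mul]
  simp only [sent, PowerSeries.coeff_mk, Finset.mul_sum, mul_ite, mul_zero]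

theorem prod_single (k : ℕ) (z : Fin k → ℂˣ) (i : Fin k) (n : ℤ) :
    ∏ x : Fin k, z x ^ ((Pi.single i n : Fin k → ℤ) x) = z i ^ n := by
  rw [Finset.prod_eq_single i]
  · rw [Pi.single_eq_same]
  · intro b _ hb
    rw [Pi.single_eq_of_ne hb, zpow_zero]
  · intro h; exact absurd (Finset.mem_univ i) h

theorem t : G_FM2 := by
  intro k N u t z h c y
  have hF : (fun s n : ℤ =>
      ((t⁻¹ ^ (-(((c.1 : ℕ) : ℤ) * s)) *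
        ∏ i, (Sum.elim z h : Fin k ⊕ Fin k → ℂˣ) i ^ (w2 k y.1 ((c.1 : ℕ) : ℤ) n i) : ℂˣ) : ℂ) *
      ((n : ℂ) ^ ((y.2).1.1 : ℕ) * (((c.1 : ℕ) : ℤ) : ℂ) ^ ((y.2).1.2 : ℕ))) =
      fun s n : ℤ => (((h y.1 : ℂˣ) : ℂ) ^ (c.1 : ℕ) * (((c.1 : ℕ) : ℕ) : ℂ) ^ ((y.2).1.2 : ℕ)) *
        ((1 * (t : ℂ) ^ (c.1 : ℕ)) ^ s * ((z y.1 : ℂˣ) : ℂ) ^ n * (n : ℂ) ^ ((y.2).1.1 : ℕ)) := by
    funext s n
    have h1 : ∏ i, (Sum.elim z h : Fin k ⊕ Fin k → ℂˣ) i ^ (w2 k y.1 ((c.1 : ℕ) : ℤ) n i) =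
        z y.1 ^ n * h y.1 ^ (((c.1 : ℕ) : ℤ)) := by
      rw [Fintype.prod_sum_type]
      simp only [w2, Sum.elim_inl, Sum.elim_inr]
      rw [prod_single, prod_single]
    have h2 : (t⁻¹ ^ (-(((c.1 : ℕ) : ℤ) * s)) : ℂˣ) = (t ^ (c.1 : ℕ)) ^ s := by
      rw [inv_zpow, zpow_neg, inv_inv, zpow_mul, zpow_natCast]
    rw [h1, h2]
    push_cast
    rw [zpow_natCast]
    ring_nf
  have hfam : fam k N u (Prod.fst : Fin k × Mon u → Fin k) Prod.snd (w2 k) t⁻¹ (Sum.elim z h) c y =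
      HahnSeries.ofPowerSeries ℤ ℂ (sent k c.2 (fun s n : ℤ =>
      ((t⁻¹ ^ (-(((c.1 : ℕ) : ℤ) * s)) *
        ∏ i, (Sum.elim z h : Fin k ⊕ Fin k → ℂˣ) i ^ (w2 k y.1 ((c.1 : ℕ) : ℤ) n i) : ℂˣ) : ℂ) *
      ((n : ℂ) ^ ((y.2).1.1 : ℕ) * (((c.1 : ℕ) : ℤ) : ℂ) ^ ((y.2).1.2 : ℕ)))) := rfl
  rw [hfam, hF, sent_mul, map_mul, HahnSeries.ofPowerSeries_C, map_mul, map_pow, map_pow,
    map_natCast, mul_assoc]
  rfl

end Pool.Agent.Helper99.FewP.FM2
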